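import Pool.Agent.helper60.DB.SpecI

/-!
# Row bi:IE (MP_fb2c2a_nt)
-/

set_option autoImplicit false

namespace Pool.Agent.helper60.DB

open Polynomial Finset Pool.Agent.helper60.DK

theorem IE_Kf (hCC : CC_stmt) (p : ℕ) [Fact p.Prime] (h5 : 5 ≤ p) (R : Type) [CommRing R] (r : R) :
    ∃ z : R, aeval r (Kf (hh p)) =
      16 ^ hh p * Kc (hh p) ((r - 1) * (r + 1) ^ 3) ((r + 2) * (r - 2) ^ 3) + (p : R) ^ 2 * z := by
  have hch : ∀ k : ℕ, ∃ d : ℤ, k ≤ hh p → c3 k = (-16) ^ k * cc (hh p) k + (p : ℤ) ^ 2 * d := by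
    intro k
    by_cases hk : k ≤ hh p
    · obtain ⟨d, hd⟩ := hCC p h5 k hk
      exact ⟨d, fun _ => by linarith⟩
    · exact ⟨0, fun h => absurd h hk⟩
  choose d hd using hch
  refine ⟨∑ k ∈ range (hh p + 1), (d k : R) * 16 ^ (hh p - k) *
    (((r - 1) * (r + 1) ^ 3) ^ k * ((r + 2) * (r - 2) ^ 3) ^ (hh p - k)), ?_⟩
  unfold Kf Kc
  rw [map_sum, Finset.mul_sum, Finset.mul_sum, ← Finset.sum_add_distrib]
  apply Finset.sum_congr rfl
  intro k hk
  have hk' : k ≤ hh p := by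
    have := Finset.mem_range.1 hk
    omega
  have o2 : aeval r (2 : ℤ[X]) = 2 := map_ofNat (aeval r) 2
  have e1 : aeval r (UU) = (r - 1) * (r + 1) ^ 3 := by
    unfold UU
    rw [map_mul, map_pow, map_sub, map_add, aeval_X, map_one]
  have e2 : aeval r (VV) = (r + 2) * (r - 2) ^ 3 := by
    unfold VV
    rw [map_mul, map_pow, map_add, map_sub, aeval_X, o2]
  have key : ∀ (t : ℤ) (i j : ℕ), aeval r (C t * (UU ^ i * VV ^ j)) =
      algebraMap ℤ R t * ((aeval r UU) ^ i * (aeval r VV) ^ j) := by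
    intro t i j
    rw [map_mul (aeval r), map_mul (aeval r), map_pow (aeval r), map_pow (aeval r), aeval_C]
  rw [key, e1, e2, hd k hk']
  have e3 : (algebraMap ℤ R) (((-16) ^ k * cc (hh p) k + (p : ℤ) ^ 2 * d k) * 16 ^ (hh p - k)) =
      ((-16) ^ k * ((cc (hh p) k : ℤ) : R) + (p : R) ^ 2 * (d k : R)) * 16 ^ (hh p - k) := by
    simp
  rw [e3]
  have e4 : (16 : R) ^ hh p = 16 ^ k * 16 ^ (hh p - k) := by
    rw [← pow_add]
    congr 1
    omega
  have e5 : ((-16 : R)) ^ k * ((r - 1) * (r + 1) ^ 3) ^ k =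
      16 ^ k * (-((r - 1) * (r + 1) ^ 3)) ^ k := by
    rw [← mul_pow, ← mul_pow]
    congr 1
    ring
  rw [e4]
  linear_combination (((cc (hh p) k : ℤ) : R) * 16 ^ (hh p - k) *
    ((r + 2) * (r - 2) ^ 3) ^ (hh p - k)) * e5

theorem IE_hm (p : ℕ) (R : Type) [CommRing R] (s x : R) (hx : x * (4 - s ^ 2) = s ^ 2 - 1) :
    aeval s (DA.hm (3 * hh p) (DA.St p)) = (4 - s ^ 2) ^ (3 * hh p) * aeval x (DA.St p) := by
  have hc : ∀ i ∈ range (3 * hh p + 1), (DA.St p).coeff i = (Sz p).coeff i := by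
    intro i hi
    unfold DA.St
    simp only [finset_sum_coeff, coeff_C_mul, coeff_X_pow]
    rw [Finset.sum_eq_single i]
    · simp
    · intro b _ hb
      rw [if_neg (fun h => hb h.symm), mul_zero]
    · intro h
      exact absurd hi h
  have e1 : aeval x (DA.St p) = ∑ i ∈ range (3 * hh p + 1), ((Sz p).coeff i : R) * x ^ i := by
    unfold DA.St
    rw [map_sum]
    apply Finset.sum_congr rfl
    intro i _
    simp
  rw [e1, Finset.mul_sum]
  unfold DA.hm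
  rw [map_sum]
  apply Finset.sum_congr rfl
  intro i hi
  have hi' : i ≤ 3 * hh p := by
    have := Finset.mem_range.1 hi
    omega
  rw [map_mul, map_mul, map_pow, map_pow, hc i hi]
  have e2 : aeval s ((X ^ 2 - 1 : ℤ[X])) = s ^ 2 - 1 := by simp
  have e3 : aeval s ((4 - X ^ 2 : ℤ[X])) = 4 - s ^ 2 := by
    rw [map_sub, map_pow, aeval_X]
    congr 1
    exact map_ofNat (aeval s) 4
  rw [e2, e3, ← hx, mul_pow, aeval_C]
  have e4 : (4 - s ^ 2) ^ (3 * hh p) = (4 - s ^ 2) ^ i * (4 - s ^ 2) ^ (3 * hh p - i) := by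
    rw [← pow_add]
    congr 1
    omega
  rw [e4]
  have e5 : (algebraMap ℤ R) ((Sz p).coeff i) = ((Sz p).coeff i : R) := by simp
  rw [e5]
  ring

theorem IE (hID : ID_stmt) (hCC : CC_stmt) : IE_stmt := by
  intro p _ h5 R _ s x hx
  obtain ⟨Z, hZ⟩ := hID p h5
  obtain ⟨z1, hz1⟩ := IE_Kf hCC p h5 R s
  obtain ⟨z2, hz2⟩ := IE_Kf hCC p h5 R (-s)
  have h1 := congrArg (aeval s) hZ
  unfold Dl at h1
  have e0 : aeval s (C ((p : ℤ) ^ 2) * Z) = (p : R) ^ 2 * aeval s Z := by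
    rw [map_mul, aeval_C]
    simp
  have e1 : aeval s (C (4 * (-1) ^ hh p * 16 ^ hh p : ℤ)) = (4 * (-1) ^ hh p * 16 ^ hh p : R) := by
    rw [aeval_C]
    simp
  have e2 : aeval s ((X + 2 : ℤ[X]) ^ p) = (s + 2) ^ p := by
    rw [map_pow, map_add, aeval_X]
    congr 2
    exact map_ofNat (aeval s) 2
  have e3 : aeval s ((2 - X : ℤ[X]) ^ p) = (2 - s) ^ p := by
    rw [map_pow, map_sub, aeval_X]
    congr 2
    exact map_ofNat (aeval s) 2
  have e4 : aeval s ((Kf (hh p)).comp (-X)) = aeval (-s) (Kf (hh p)) := by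
    rw [aeval_comp, map_neg, aeval_X]
  have key : ∀ (a b c d f g : ℤ[X]), aeval s (a * b - c * d - f * g) =
      aeval s a * aeval s b - aeval s c * aeval s d - aeval s f * aeval s g := by
    intro a b c d f g
    rw [map_sub, map_sub, map_mul, map_mul, map_mul]
  rw [key, e0, e1, e2, e3, e4, IE_hm p R s x hx, hz1, hz2] at h1
  -- the inverse of 16 ^ h modulo p ^ 2
  have hp : p.Prime := Fact.out
  have hcop : IsCoprime ((16 : ℤ) ^ hh p) ((p : ℤ) ^ 2) := by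
    apply IsCoprime.pow
    rw [show (16 : ℤ) = ((16 : ℕ) : ℤ) by norm_num]
    rw [Nat.isCoprime_iff_coprime]
    have h16 : (16 : ℕ) = 2 ^ 4 := by norm_num
    rw [h16]
    apply Nat.Coprime.pow_left
    rw [Nat.coprime_primes Nat.prime_two hp]
    omega
  obtain ⟨a, b, hab⟩ := hcop
  have habR : (a : R) * 16 ^ hh p + (b : R) * (p : R) ^ 2 = 1 := by
    have := congrArg (fun t : ℤ => (t : R)) hab
    push_cast at this
    exact this
  obtain ⟨T, hT⟩ : ∃ T : R, T = (4 - s ^ 2) ^ (3 * hh p) * aeval x (DA.St p) := ⟨_, rfl⟩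
  obtain ⟨K1, hK1⟩ : ∃ K1 : R, K1 = Kc (hh p) ((s - 1) * (s + 1) ^ 3) ((s + 2) * (s - 2) ^ 3) :=
    ⟨_, rfl⟩
  obtain ⟨K2, hK2⟩ : ∃ K2 : R, K2 = Kc (hh p) ((-s - 1) * (-s + 1) ^ 3)
      ((-s + 2) * (-s - 2) ^ 3) := ⟨_, rfl⟩
  rw [← hT, ← hK1, ← hK2] at h1
  rw [← hK1, ← hK2, mul_assoc (4 * (-1) ^ hh p), ← hT]
  obtain ⟨Q, hQ⟩ : ∃ Q : R, Q = 4 * (-1) ^ hh p * T - (s + 2) ^ p * K1 - (2 - s) ^ p * K2 :=
    ⟨_, rfl⟩
  refine ⟨(a : R) * (aeval s Z + (s + 2) ^ p * z1 + (2 - s) ^ p * z2) + b * Q, ?_⟩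
  have h2 : 16 ^ hh p * Q = (p : R) ^ 2 * (aeval s Z + (s + 2) ^ p * z1 + (2 - s) ^ p * z2) := by
    rw [hQ]
    linear_combination h1
  have h3 : Q = (p : R) ^ 2 * ((a : R) * (aeval s Z + (s + 2) ^ p * z1 + (2 - s) ^ p * z2) +
      b * Q) := by
    linear_combination (-Q) * habR + (a : R) * h2
  linear_combination h3 - hQ

end Pool.Agent.helper60.DB
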