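import Pool.Agent.helper60.DB.SpecF

/-!
# Row bf:KC (MP_fb2c2a_nt)
-/

set_option autoImplicit false

namespace Pool.Agent.helper60.DB

open Polynomial Finset Pool.Agent.helper60.DK

theorem KC (hGP : GP_stmt) (hEP : EP_stmt) : KC_stmt := by
  intro R k _ _ _ _ p m _ _ q hL h5 hpm A A' π α B η y w g' u' e hy hw hRP hπ hπα hpB hΔ hMl he hTy
    hHt hη hA hA'
  obtain ⟨g, u, hgu⟩ := hRP
  have hqB : q (B : R) ≠ 0 := by
    rw [map_intCast]
    intro h
    exact hpB ((CharP.intCast_eq_zero_iff k p B).1 h)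
  have hB0 : (B : R) ≠ 0 := by
    intro h
    rw [h, map_zero] at hqB
    exact hqB rfl
  obtain ⟨ε, h1, h2, h3, h4⟩ := hGP R k p m q hL h5 hpm A (B : R) A' (B : R) π α y w g u g' u' e
    hy hw hgu hπ hπα hqB hΔ hB0 hMl he hTy hHt
  have h6 : q ε ^ 2 = (η : k) := by
    apply mul_left_cancel₀ hA'
    rw [h3, hA]
    ring
  have h7 := hEP R k p m q hL h5 hpm ε B η hpB hη h2 h6
  obtain ⟨z, hz⟩ := h4
  refine ⟨2 * α * ε * z + (p : R) ^ 2 * z ^ 2, ?_⟩
  have h8 : PowerSeries.coeff m w = α * ε + (p : R) ^ 2 * z := by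
    linear_combination hz
  rw [h8, ← h7]
  ring

end Pool.Agent.helper60.DB
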